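import Pool.Agent.Q57.LT.Core

/-! Approximation of point masses by `λ^n h ∘ φ^n` with `h` small. -/

set_option autoImplicit false

namespace Q57.LT

open Filter Topology

/-- the real profile at time `n` -/
noncomputable def prof (η X : ℝ) (n j : ℕ) (v : ℕ × ℕ) : ℝ :=
  if v.1 = 0 then psi η X |((v.2 : ℝ) + 1) - (j + 1) * 2 ^ n| else 0

theorem prof_phi_zero (η X : ℝ) (n j x : ℕ) :
    prof η X n j (phi^[n] (0, x)) = psi η X (2 ^ n * |(x : ℝ) - j|) := by
  rw [phi_iter_zero]
  simp only [prof, if_true]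
  have h1 : 1 ≤ 2 ^ n * (x + 1) := Nat.one_le_iff_ne_zero.mpr (by positivity)
  rw [Nat.cast_sub h1]
  push_cast
  rw [show (2 : ℝ) ^ n * (x + 1) - 1 + 1 - (j + 1) * 2 ^ n = 2 ^ n * (x - j) by ring, abs_mul,
    abs_of_pos (by positivity : (0 : ℝ) < 2 ^ n)]

theorem prof_phi_lt (η X : ℝ) (n j k x : ℕ) (h : n < k) :
    prof η X n j (phi^[n] (k, x)) = 0 := by
  rw [phi_iter_lt n k x h]
  simp only [prof]
  rw [if_neg (by omega)]

theorem prof_phi_ge (η X : ℝ) (n j k x : ℕ) (hk : 1 ≤ k) (h : k ≤ n) :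
    prof η X n j (phi^[n] (k, x))
      = psi η X (2 ^ (n - k) * |((2 * x + 1 : ℕ) : ℝ) - ((j + 1) * 2 ^ k : ℕ)|) := by
  rw [phi_iter_ge n k x hk h]
  simp only [prof, if_true]
  have h1 : 1 ≤ 2 ^ (n - k) * (2 * x + 1) := Nat.one_le_iff_ne_zero.mpr (by positivity)
  rw [Nat.cast_sub h1]
  have h2 : (2 : ℝ) ^ n = 2 ^ (n - k) * 2 ^ k := by rw [← pow_add]; congr 1; omega
  push_cast
  rw [h2, show (2 : ℝ) ^ (n - k) * (2 * x + 1) - 1 + 1 - (j + 1) * (2 ^ (n - k) * 2 ^ k)
    = 2 ^ (n - k) * (2 * x + 1 - (j + 1) * 2 ^ k) by ring, abs_mul,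
    abs_of_pos (by positivity : (0 : ℝ) < 2 ^ (n - k))]

theorem core (lam : ℂ) (h1 : 1 / 2 < ‖lam‖) (h2 : ‖lam‖ < 1) (j : ℕ) (ε : ℝ) (hε : 0 < ε) :
    ∃ N, ∀ n ≥ N, ∃ h : ℕ × ℕ → ℂ, (Function.support h).Finite ∧ (∀ v, ‖Dd h v‖ ≤ ε) ∧
      ∀ v, ‖Dd (fun u => lam ^ n * h (phi^[n] u) - if u = (0, j) then 1 else 0) v‖ ≤ ε := by
  set r := ‖lam‖ with hr
  have hr0 : 0 < r := by linarith
  have hlam : lam ≠ 0 := norm_pos_iff.mp (by rw [← hr]; exact hr0)
  obtain ⟨η, hηd⟩ : ∃ η, η = ε / 2 := ⟨_, rfl⟩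
  have hη : 0 < η := by rw [hηd]; linarith
  -- n large
  have hlim : Tendsto (fun n : ℕ => (2 * r) ^ n) atTop atTop :=
    tendsto_pow_atTop_atTop_of_one_lt (by linarith)
  obtain ⟨N, hN⟩ := (hlim.eventually (eventually_ge_atTop (2 * Real.exp (1 / η)))).exists_forall_of_atTop
  refine ⟨N + 1, fun n hn => ?_⟩
  have hNn := hN n (by omega)
  obtain ⟨X, hXd⟩ : ∃ X, X = (r ^ n)⁻¹ := ⟨_, rfl⟩
  have hrn : 0 < r ^ n := pow_pos hr0 n
  have hX : 0 < X := by rw [hXd]; exact inv_pos.mpr hrn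
  have hR : X * Real.exp (1 / η) ≤ 2 ^ (n - 1) := by
    have h3 : (2 : ℝ) ^ n = 2 * 2 ^ (n - 1) := by
      rw [← pow_succ']; congr 1; omega
    rw [mul_pow, h3] at hNn
    rw [hXd, inv_mul_le_iff₀ hrn]
    nlinarith
  have hz : ∀ t : ℝ, 2 ^ (n - 1) ≤ t → psi η X t = 0 := fun t ht =>
    psi_eq_zero η X hη hX t (hR.trans ht)
  have h2n : (2 : ℝ) ^ n = 2 * 2 ^ (n - 1) := by
    rw [← pow_succ']; congr 1; omega
  have hp : (1 : ℝ) ≤ 2 ^ (n - 1) := one_le_pow₀ (by norm_num)
  -- the function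
  let h : ℕ × ℕ → ℂ := fun v => (lam ^ n)⁻¹ * (prof η X n j v : ℂ)
  have hval : ∀ u, lam ^ n * h (phi^[n] u) = (prof η X n j (phi^[n] u) : ℂ) := by
    intro u
    simp only [h]
    rw [← mul_assoc, mul_inv_cancel₀ (pow_ne_zero n hlam), one_mul]
  refine ⟨h, ?_, ?_, ?_⟩
  · -- finite support
    refine Set.Finite.subset (s := (({0} : Set ℕ) ×ˢ Set.Iic ((j + 2) * 2 ^ n))) ?_ ?_
    · exact (Set.finite_singleton 0).prod (Set.finite_Iic _)
    · rintro ⟨k, x⟩ hv
      simp only [Function.mem_support, h, prof, ne_eq, mul_eq_zero, not_or] at hv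
      have hk : k = 0 := by
        by_contra hk
        exact hv.2 (by rw [if_neg hk]; simp)
      subst hk
      refine ⟨rfl, ?_⟩
      simp only [Set.mem_Iic]
      by_contra hcon
      push Not at hcon
      apply hv.2
      rw [if_pos rfl]
      have h3 : ((j + 2) * 2 ^ n : ℝ) < x := by exact_mod_cast hcon
      rw [hz]
      · simp
      · rw [abs_of_nonneg]
        · rw [h2n] at h3 ⊢; nlinarith
        · rw [h2n] at h3 ⊢; nlinarith
  · -- small
    have hnorm : ∀ a b : ℝ, ‖(lam ^ n)⁻¹ * (a : ℂ) - (lam ^ n)⁻¹ * (b : ℂ)‖ = X * |a - b| := by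
      intro a b
      rw [← mul_sub, norm_mul, norm_inv, norm_pow, ← hr, ← Complex.ofReal_sub, Complex.norm_real,
        Real.norm_eq_abs, ← hXd]
    have h00 : prof η X n j (0, 0) = 0 := by
      simp only [prof, if_true]
      apply hz
      rw [abs_sub_comm, abs_of_nonneg]
      · push_cast; rw [h2n]; nlinarith [show (0:ℝ) ≤ j from Nat.cast_nonneg j]
      · push_cast; rw [h2n]; nlinarith [show (0:ℝ) ≤ j from Nat.cast_nonneg j]
    rintro ⟨k, i⟩
    match k, i with
    | 0, 0 =>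
      rw [Dd_root]; simp only [h]; rw [h00]; simp; exact hε.le
    | 0, i + 1 =>
      rw [Dd_succ]
      simp only [h]
      rw [hnorm]
      simp only [prof, if_true]
      have h3 := psi_step η X hη hX (|(((i + 1 : ℕ) : ℝ) + 1) - (j + 1) * 2 ^ n|)
        (|((i : ℝ) + 1) - (j + 1) * 2 ^ n|) (by
          refine (abs_abs_sub_abs_le _ _).trans ?_
          push_cast
          rw [show ((i : ℝ) + 1 + 1 - (j + 1) * 2 ^ n - ((i : ℝ) + 1 - (j + 1) * 2 ^ n)) = 1 by ring]
          simp)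
      calc X * _ ≤ X * (η / X) := mul_le_mul_of_nonneg_left h3 hX.le
        _ = η := by field_simp
        _ ≤ ε := by rw [hηd]; linarith
    | k + 1, i + 1 =>
      rw [Dd_succ]
      simp only [h, prof]
      simp [hε.le]
    | k + 1, 0 =>
      rw [Dd_up]
      simp only [h]
      rw [hnorm]
      rcases Nat.eq_zero_or_pos k with hk | hk
      · subst hk
        rw [h00]; simp [prof, hε.le]
      · simp only [prof]
        rw [if_neg (by simp), if_neg (by omega)]
        simp [hε.le]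
  · -- approximation
    rintro ⟨k, i⟩
    simp only [hval]
    match k, i with
    | 0, 0 =>
      rw [Dd_root, prof_phi_zero]
      by_cases hj : j = 0
      · subst hj
        simp only [Nat.cast_zero, sub_self, abs_zero, mul_zero, if_true]
        rw [psi_zero η X hX 0 hX.le]; simp [hε.le]
      · rw [if_neg (by simp; omega)]
        have hj1 : (1 : ℝ) ≤ j := by exact_mod_cast Nat.one_le_iff_ne_zero.mpr hj
        rw [hz]
        · simp [hε.le]
        · push_cast
          rw [zero_sub, abs_neg, abs_of_nonneg (by positivity), h2n]; nlinarith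
    | 0, i + 1 =>
      rw [Dd_succ]
      have hgen : ∀ x : ℕ, (prof η X n j (phi^[n] (0, x)) : ℂ) - (if ((0 : ℕ), x) = (0, j) then 1 else 0) = 0 := by
        intro x
        rw [prof_phi_zero]
        by_cases hxj : x = j
        · subst hxj
          rw [sub_self, abs_zero, mul_zero, psi_zero η X hX 0 hX.le]; simp
        · rw [if_neg (by simpa using hxj), hz]
          · simp
          · have h3 : (1 : ℝ) ≤ |(x : ℝ) - j| := by
              have h4 : (x : ℤ) - j ≠ 0 := by omega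
              have h5 := Int.one_le_abs h4
              exact_mod_cast h5
            rw [h2n]; nlinarith
      rw [hgen, hgen]; simp [hε.le]
    | k + 1, i + 1 =>
      rw [Dd_succ]
      rw [if_neg (by simp), if_neg (by simp), sub_zero, sub_zero]
      rcases Nat.lt_or_ge n (k + 1) with hnk | hnk
      · rw [prof_phi_lt _ _ _ _ _ _ hnk, prof_phi_lt _ _ _ _ _ _ hnk]; simp [hε.le]
      · rw [prof_phi_ge _ _ _ _ _ _ (by omega) hnk, prof_phi_ge _ _ _ _ _ _ (by omega) hnk]
        rw [← Complex.ofReal_sub, Complex.norm_real, Real.norm_eq_abs]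
        -- distances
        have hint : ∀ x : ℕ, (1 : ℝ) ≤ |((2 * x + 1 : ℕ) : ℝ) - ((j + 1) * 2 ^ (k + 1) : ℕ)| := by
          intro x
          have h4 : ((2 * x + 1 : ℕ) : ℤ) - ((j + 1) * 2 ^ (k + 1) : ℕ) ≠ 0 := by
            have h5 : (j + 1) * 2 ^ (k + 1) = 2 * ((j + 1) * 2 ^ k) := by ring
            rw [h5]; omega
          have h5 := Int.one_le_abs h4
          exact_mod_cast h5
        have ha := hint (i + 1)
        have hb := hint i
        have hab : |(|((2 * (i + 1) + 1 : ℕ) : ℝ) - ((j + 1) * 2 ^ (k + 1) : ℕ)|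
            - |((2 * i + 1 : ℕ) : ℝ) - ((j + 1) * 2 ^ (k + 1) : ℕ)|)| ≤ 2 := by
          refine (abs_abs_sub_abs_le _ _).trans ?_
          push_cast
          rw [show (2 * ((i : ℝ) + 1) + 1 - (j + 1) * 2 ^ (k + 1)
            - (2 * (i : ℝ) + 1 - (j + 1) * 2 ^ (k + 1))) = 2 by ring]
          simp
        rw [abs_le] at hab
        obtain ⟨a, had⟩ : ∃ a, a = |((2 * (i + 1) + 1 : ℕ) : ℝ) - ((j + 1) * 2 ^ (k + 1) : ℕ)| := ⟨_, rfl⟩
        obtain ⟨b, hbd⟩ : ∃ b, b = |((2 * i + 1 : ℕ) : ℝ) - ((j + 1) * 2 ^ (k + 1) : ℕ)| := ⟨_, rfl⟩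
        rw [← had] at ha hab ⊢
        rw [← hbd] at hb hab ⊢
        have hq : (0 : ℝ) < 2 ^ (n - (k + 1)) := by positivity
        refine (psi_ratio η X hη hX _ _ (by positivity) (by positivity) ?_ ?_).trans ?_
        · nlinarith
        · nlinarith
        · rw [hηd]; linarith
    | k + 1, 0 =>
      rw [Dd_up]
      have hzz : ∀ k' : ℕ, (prof η X n j (phi^[n] (k' + 1, 0)) : ℂ) = 0 := by
        intro k'
        rcases Nat.lt_or_ge n (k' + 1) with hnk | hnk
        · rw [prof_phi_lt _ _ _ _ _ _ hnk]; simp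
        · rw [prof_phi_ge _ _ _ _ _ _ (by omega) hnk, hz]
          · simp
          · have h3 : (2 : ℝ) ^ (n - (k' + 1)) * 2 ^ (k' + 1) = 2 ^ n := by
              rw [← pow_add]; congr 1; omega
            have h4 : (2 : ℝ) ^ (n - (k' + 1)) ≤ 2 ^ (n - 1) :=
              pow_le_pow_right₀ (by norm_num) (by omega)
            have h5 : (2 : ℝ) ^ (n - (k' + 1)) * (((j + 1) * 2 ^ (k' + 1) : ℕ) - (1 : ℝ))
                ≥ 2 ^ (n - 1) := by
              push_cast
              have h6 : (2 : ℝ) ^ (n - (k' + 1)) * ((j + 1) * 2 ^ (k' + 1) - 1)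
                = (j + 1) * (2 ^ (n - (k' + 1)) * 2 ^ (k' + 1)) - 2 ^ (n - (k' + 1)) := by ring
              rw [h6, h3, h2n]
              nlinarith [show (0:ℝ) ≤ j from Nat.cast_nonneg j]
            refine h5.le.trans ?_
            apply mul_le_mul_of_nonneg_left _ (by positivity)
            rw [abs_sub_comm]
            have h7 : ((2 * 0 + 1 : ℕ) : ℝ) = 1 := by norm_num
            rw [h7]
            exact le_abs_self _
      rw [hzz k, if_neg (by simp)]
      rcases Nat.eq_zero_or_pos k with hk | hk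
      · subst hk
        rw [prof_phi_zero]
        by_cases hj : j = 0
        · subst hj
          simp only [Nat.cast_zero, sub_self, abs_zero, mul_zero, if_true]
          rw [psi_zero η X hX 0 hX.le]; simp [hε.le]
        · rw [if_neg (by simp; omega)]
          have hj1 : (1 : ℝ) ≤ j := by exact_mod_cast Nat.one_le_iff_ne_zero.mpr hj
          rw [hz]
          · simp [hε.le]
          · push_cast
            rw [zero_sub, abs_neg, abs_of_nonneg (by positivity), h2n]; nlinarith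
      · obtain ⟨k', rfl⟩ : ∃ k', k = k' + 1 := ⟨k - 1, by omega⟩
        rw [hzz k', if_neg (by simp)]; simp [hε.le]

end Q57.LT
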