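import Mathlib

/-! A bijective self-map of the comb tree on `ℕ × ℕ` whose composition operator, multiplied by
`λ` with `1/2 < |λ| < 1`, is hypercyclic on the little Lipschitz space: the estimates. -/

set_option autoImplicit false

namespace Q57.LT

open Filter Topology

/-- logarithmic cut-off -/
noncomputable def psi (η X t : ℝ) : ℝ := max 0 (1 - η * Real.log (max t X / X))

section psi
variable (η X : ℝ) (hη : 0 < η) (hX : 0 < X)

theorem psi_nonneg (t : ℝ) : 0 ≤ psi η X t := le_max_left _ _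

include hη hX in
theorem psi_le_one (t : ℝ) : psi η X t ≤ 1 := by
  unfold psi
  apply max_le zero_le_one
  have : 0 ≤ Real.log (max t X / X) :=
    Real.log_nonneg (by rw [le_div_iff₀ hX, one_mul]; exact le_max_right _ _)
  have := mul_nonneg hη.le this
  linarith

include hX in
theorem psi_zero (t : ℝ) (ht : t ≤ X) : psi η X t = 1 := by
  unfold psi
  rw [max_eq_right ht, div_self hX.ne', Real.log_one, mul_zero, sub_zero]
  exact max_eq_right zero_le_one

include hη hX in
theorem psi_eq_zero (t : ℝ) (ht : X * Real.exp (1 / η) ≤ t) : psi η X t = 0 := by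
  unfold psi
  apply max_eq_left
  have h1 : Real.exp (1 / η) ≤ max t X / X := by
    rw [le_div_iff₀ hX, mul_comm]; exact ht.trans (le_max_left _ _)
  have h2 : 1 / η ≤ Real.log (max t X / X) := by
    rw [Real.le_log_iff_exp_le (lt_of_lt_of_le (Real.exp_pos _) h1)]; exact h1
  have h3 : η * (1 / η) ≤ η * Real.log (max t X / X) := mul_le_mul_of_nonneg_left h2 hη.le
  rw [mul_one_div_cancel hη.ne'] at h3
  linarith

include hη hX in
theorem psi_sub_le (s t : ℝ) (hst : s ≤ t) :
    |psi η X s - psi η X t| ≤ η * (Real.log (max t X) - Real.log (max s X)) := by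
  have hs : 0 < max s X := lt_max_of_lt_right hX
  have ht : 0 < max t X := lt_max_of_lt_right hX
  have h1 : Real.log (max s X / X) = Real.log (max s X) - Real.log X :=
    Real.log_div hs.ne' hX.ne'
  have h2 : Real.log (max t X / X) = Real.log (max t X) - Real.log X :=
    Real.log_div ht.ne' hX.ne'
  unfold psi
  refine (abs_max_sub_max_le_max _ _ _ _).trans ?_
  rw [h1, h2, sub_self, abs_zero]
  have h3 : Real.log (max s X) ≤ Real.log (max t X) :=
    Real.log_le_log hs (max_le_max_right X hst)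
  have h4 : 0 ≤ η * (Real.log (max t X) - Real.log (max s X)) :=
    mul_nonneg hη.le (by linarith)
  apply max_le h4
  rw [show 1 - η * (Real.log (max s X) - Real.log X) - (1 - η * (Real.log (max t X) - Real.log X))
    = η * (Real.log (max t X) - Real.log (max s X)) by ring, abs_of_nonneg h4]

include hη hX in
theorem psi_step (s t : ℝ) (h : |s - t| ≤ 1) : |psi η X s - psi η X t| ≤ η / X := by
  wlog hst : s ≤ t generalizing s t with H
  · rw [abs_sub_comm]
    exact H t s (by rw [abs_sub_comm]; exact h) (le_of_not_ge hst)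
  refine (psi_sub_le η X hη hX s t hst).trans ?_
  have hs : 0 < max s X := lt_max_of_lt_right hX
  have ht : 0 < max t X := lt_max_of_lt_right hX
  have h1 : Real.log (max t X) - Real.log (max s X) ≤ 1 / X := by
    rw [← Real.log_div ht.ne' hs.ne']
    refine (Real.log_le_sub_one_of_pos (div_pos ht hs)).trans ?_
    rw [div_sub_one hs.ne', div_le_div_iff₀ hs hX]
    have h2 : max t X - max s X ≤ 1 := by
      rw [abs_le] at h
      rcases le_total t X with h3 | h3
      · rw [max_eq_right h3, max_eq_right (hst.trans h3)]; linarith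
      · rw [max_eq_left h3]
        have := le_max_left s X
        linarith
    have h3 : X ≤ max s X := le_max_right _ _
    nlinarith
  calc η * (Real.log (max t X) - Real.log (max s X)) ≤ η * (1 / X) :=
        mul_le_mul_of_nonneg_left h1 hη.le
    _ = η / X := by ring

include hη hX in
theorem psi_ratio (s t : ℝ) (hs0 : 0 < s) (ht0 : 0 < t) (h1 : s ≤ 3 * t) (h2 : t ≤ 3 * s) :
    |psi η X s - psi η X t| ≤ 2 * η := by
  wlog hst : s ≤ t generalizing s t with H
  · rw [abs_sub_comm]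
    exact H t s ht0 hs0 h2 h1 (le_of_not_ge hst)
  refine (psi_sub_le η X hη hX s t hst).trans ?_
  have hs : 0 < max s X := lt_max_of_lt_right hX
  have ht : 0 < max t X := lt_max_of_lt_right hX
  have h3 : Real.log (max t X) - Real.log (max s X) ≤ 2 := by
    rw [← Real.log_div ht.ne' hs.ne', Real.log_le_iff_le_exp (div_pos ht hs)]
    have h4 : max t X / max s X ≤ 3 := by
      rw [div_le_iff₀ hs]
      apply max_le
      · have := le_max_left s X; linarith
      · have := le_max_right s X; linarith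
    have h5 := Real.quadratic_le_exp_of_nonneg (show (0 : ℝ) ≤ 2 by norm_num)
    linarith
  calc η * (Real.log (max t X) - Real.log (max s X)) ≤ η * 2 :=
        mul_le_mul_of_nonneg_left h3 hη.le
    _ = 2 * η := by ring

end psi

/-- parent in the comb -/
def par : ℕ × ℕ → ℕ × ℕ
  | (k, i + 1) => (k, i)
  | (k + 1, 0) => (k, 0)
  | (0, 0) => (0, 0)

/-- the bijection -/
def phi : ℕ × ℕ → ℕ × ℕ
  | (0, x) => (0, 2 * x + 1)
  | (1, x) => (0, 2 * x)
  | (k + 2, x) => (k + 1, x)

/-- the difference operator -/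
noncomputable def Dd (f : ℕ × ℕ → ℂ) (v : ℕ × ℕ) : ℂ :=
  if v = (0, 0) then f v else f v - f (par v)

theorem Dd_root (f : ℕ × ℕ → ℂ) : Dd f (0, 0) = f (0, 0) := by simp [Dd]

theorem Dd_succ (f : ℕ × ℕ → ℂ) (k i : ℕ) : Dd f (k, i + 1) = f (k, i + 1) - f (k, i) := by
  simp [Dd, par]

theorem Dd_up (f : ℕ × ℕ → ℂ) (k : ℕ) : Dd f (k + 1, 0) = f (k + 1, 0) - f (k, 0) := by
  simp [Dd, par]

theorem Dd_add (f g : ℕ × ℕ → ℂ) (v : ℕ × ℕ) :
    Dd (fun u => f u + g u) v = Dd f v + Dd g v := by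
  unfold Dd; split_ifs <;> ring

theorem Dd_sub (f g : ℕ × ℕ → ℂ) (v : ℕ × ℕ) :
    Dd (fun u => f u - g u) v = Dd f v - Dd g v := by
  unfold Dd; split_ifs <;> ring

theorem Dd_smul (c : ℂ) (f : ℕ × ℕ → ℂ) (v : ℕ × ℕ) :
    Dd (fun u => c * f u) v = c * Dd f v := by
  unfold Dd; split_ifs <;> ring

theorem phi_bijective : Function.Bijective phi := by
  constructor
  · rintro ⟨k, x⟩ ⟨l, y⟩ h
    match k, l with
    | 0, 0 => simp [phi] at h; simp; omega
    | 0, 1 => simp [phi] at h; omega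
    | 0, l + 2 => simp [phi] at h
    | 1, 0 => simp [phi] at h; omega
    | 1, 1 => simp [phi] at h; simp; omega
    | 1, l + 2 => simp [phi] at h
    | k + 2, 0 => simp [phi] at h
    | k + 2, 1 => simp [phi] at h
    | k + 2, l + 2 => simp [phi] at h; simp; omega
  · rintro ⟨k, x⟩
    match k with
    | 0 =>
      rcases Nat.even_or_odd' x with ⟨y, hy | hy⟩
      · exact ⟨(1, y), by simp [phi, hy]⟩
      · exact ⟨(0, y), by simp [phi, hy]⟩
    | k + 1 => exact ⟨(k + 2, x), by simp [phi]⟩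

theorem phi_iter_zero (n x : ℕ) : phi^[n] (0, x) = (0, 2 ^ n * (x + 1) - 1) := by
  induction n with
  | zero => simp
  | succ n ih =>
    rw [Function.iterate_succ_apply', ih]
    simp only [phi]
    have : 1 ≤ 2 ^ n * (x + 1) := Nat.one_le_iff_ne_zero.mpr (by positivity)
    congr 1
    rw [pow_succ]
    have h2 : 2 ^ n * 2 * (x + 1) = 2 * (2 ^ n * (x + 1)) := by ring
    omega

theorem phi_iter_lt (n k x : ℕ) (h : n < k) : phi^[n] (k, x) = (k - n, x) := by
  induction n with
  | zero => simp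
  | succ n ih =>
    rw [Function.iterate_succ_apply', ih (by omega)]
    obtain ⟨m, hm⟩ : ∃ m, k - n = m + 2 := ⟨k - n - 2, by omega⟩
    rw [hm]
    simp only [phi]
    congr 1
    omega

theorem phi_iter_ge (n k x : ℕ) (hk : 1 ≤ k) (h : k ≤ n) :
    phi^[n] (k, x) = (0, 2 ^ (n - k) * (2 * x + 1) - 1) := by
  obtain ⟨m, rfl⟩ : ∃ m, n = m + k := ⟨n - k, by omega⟩
  obtain ⟨l, rfl⟩ : ∃ l, k = l + 1 := ⟨k - 1, by omega⟩
  rw [Function.iterate_add_apply, Function.iterate_succ_apply', phi_iter_lt l (l + 1) x (by omega)]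
  simp only [show l + 1 - l = 1 by omega, phi]
  rw [phi_iter_zero, Nat.add_sub_cancel]

/-- composition with `phi` -/
theorem comp_bound (f : ℕ × ℕ → ℂ) (c : ℝ) (hf : ∀ v, ‖Dd f v‖ ≤ c) (v : ℕ × ℕ) :
    ‖Dd (f ∘ phi) v‖ ≤ 2 * c := by
  have hc : 0 ≤ c := (norm_nonneg _).trans (hf (0, 0))
  have h2 : ∀ a b : ℂ, ‖a‖ ≤ c → ‖b‖ ≤ c → ‖a + b‖ ≤ 2 * c := fun a b ha hb =>
    (norm_add_le _ _).trans (by linarith)
  obtain ⟨k, i⟩ := v
  match k, i with
  | 0, 0 =>
    rw [Dd_root]
    have : (f ∘ phi) (0, 0) = Dd f (0, 1) + Dd f (0, 0) := by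
      rw [Dd_succ, Dd_root]; simp [phi]
    rw [this]; exact h2 _ _ (hf _) (hf _)
  | 0, i + 1 =>
    rw [Dd_succ]
    have : (f ∘ phi) (0, i + 1) - (f ∘ phi) (0, i) = Dd f (0, 2 * i + 2 + 1) + Dd f (0, 2 * i + 1 + 1) := by
      rw [Dd_succ, Dd_succ]
      simp only [Function.comp_apply, phi]
      rw [show 2 * (i + 1) + 1 = 2 * i + 2 + 1 by ring, show 2 * i + 2 = 2 * i + 1 + 1 by ring]
      ring
    rw [this]; exact h2 _ _ (hf _) (hf _)
  | 1, 0 =>
    have h := Dd_up (f ∘ phi) 0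
    rw [Nat.zero_add] at h
    rw [h]
    have : (f ∘ phi) (1, 0) - (f ∘ phi) (0, 0) = - Dd f (0, 0 + 1) := by
      rw [Dd_succ]; simp [phi]
    rw [this, norm_neg]; linarith [hf (0, 0 + 1)]
  | 1, i + 1 =>
    rw [Dd_succ]
    have : (f ∘ phi) (1, i + 1) - (f ∘ phi) (1, i) = Dd f (0, 2 * i + 1 + 1) + Dd f (0, 2 * i + 1) := by
      rw [Dd_succ, Dd_succ]
      simp only [Function.comp_apply, phi]
      rw [show 2 * (i + 1) = 2 * i + 1 + 1 by ring]
      ring
    rw [this]; exact h2 _ _ (hf _) (hf _)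
  | 2, 0 =>
    have h := Dd_up (f ∘ phi) 1
    norm_num at h
    rw [h]
    have : (f ∘ phi) (2, 0) - (f ∘ phi) (1, 0) = Dd f (0 + 1, 0) := by
      rw [Dd_up]; simp [phi]
    simp only [Function.comp_apply] at this
    rw [this]; linarith [hf (0 + 1, 0)]
  | k + 3, 0 =>
    have h := Dd_up (f ∘ phi) (k + 2)
    rw [show k + 2 + 1 = k + 3 by ring] at h
    rw [h]
    have : (f ∘ phi) (k + 3, 0) - (f ∘ phi) (k + 2, 0) = Dd f (k + 1 + 1, 0) := by
      rw [Dd_up]; simp [phi]
    rw [this]; linarith [hf (k + 1 + 1, 0)]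
  | k + 2, i + 1 =>
    rw [Dd_succ]
    have : (f ∘ phi) (k + 2, i + 1) - (f ∘ phi) (k + 2, i) = Dd f (k + 1, i + 1) := by
      rw [Dd_succ]; simp [phi]
    rw [this]; linarith [hf (k + 1, i + 1)]

theorem comp_iter_bound (f : ℕ × ℕ → ℂ) (c : ℝ) (hf : ∀ v, ‖Dd f v‖ ≤ c) (n : ℕ) (v : ℕ × ℕ) :
    ‖Dd (f ∘ phi^[n]) v‖ ≤ 2 ^ n * c := by
  induction n generalizing v with
  | zero => simpa using hf v
  | succ n ih =>
    rw [Function.iterate_succ, ← Function.comp_assoc]
    have := comp_bound (f ∘ phi^[n]) (2 ^ n * c) ih v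
    rw [pow_succ]; linarith

end Q57.LT
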