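import Pool.Agent.Q57.LT.Space

/-! The hypercyclic vector. -/

set_option autoImplicit false

namespace Q57.LT

open Filter Topology TopologicalSpace
open scoped ZeroAtInfty

/-- inverse of `Dd` -/
noncomputable def J (x : ℕ × ℕ → ℂ) (v : ℕ × ℕ) : ℂ :=
  ∑ l ∈ Finset.range (v.1 + 1), x (l, 0) + ∑ m ∈ Finset.range v.2, x (v.1, m + 1)

theorem Dd_J (x : ℕ × ℕ → ℂ) : Dd (J x) = x := by
  funext v
  obtain ⟨k, i⟩ := v
  match k, i with
  | 0, 0 => rw [Dd_root]; simp [J]
  | k, i + 1 =>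
    rw [Dd_succ]; simp only [J]
    rw [Finset.sum_range_succ (fun m => x (k, m + 1)) i]; ring
  | k + 1, 0 =>
    rw [Dd_up]; simp only [J]
    rw [Finset.sum_range_succ (fun l => x (l, 0)) (k + 1)]; simp

theorem J_Dd (f : ℕ × ℕ → ℂ) : J (Dd f) = f := by
  have hk : ∀ k, ∑ l ∈ Finset.range (k + 1), Dd f (l, 0) = f (k, 0) := by
    intro k
    induction k with
    | zero => simp [Dd_root]
    | succ k ih => rw [Finset.sum_range_succ, ih, Dd_up]; ring
  have hi : ∀ k i, ∑ m ∈ Finset.range i, Dd f (k, m + 1) = f (k, i) - f (k, 0) := by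
    intro k i
    induction i with
    | zero => simp
    | succ i ih => rw [Finset.sum_range_succ, ih, Dd_succ]; ring
  funext v
  obtain ⟨k, i⟩ := v
  simp only [J]
  rw [hk, hi]; ring

theorem J_add (x y : ℕ × ℕ → ℂ) : J (fun v => x v + y v) = fun v => J x v + J y v := by
  funext v; simp only [J, Finset.sum_add_distrib]; ring

theorem J_smul (c : ℂ) (x : ℕ × ℕ → ℂ) : J (fun v => c * x v) = fun v => c * J x v := by
  funext v; simp only [J, ← Finset.mul_sum]; ring

theorem Zt_iff (y : ℕ × ℕ → ℂ) : Zt y ↔ Tendsto y (cocompact (ℕ × ℕ)) (𝓝 0) := by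
  rw [cocompact_eq_cofinite, Metric.tendsto_nhds]
  simp only [Filter.eventually_cofinite, dist_zero_right, not_lt]
  constructor
  · intro h ε hε
    obtain ⟨M, hM⟩ := h ε hε
    refine ((Set.finite_Iic M).prod (Set.finite_Iic M)).subset ?_
    intro v hv
    simp only [Set.mem_ofPred_eq] at hv
    by_contra hcon
    have := hM v (by
      simp only [Set.mem_prod, Set.mem_Iic, not_and_or] at hcon
      omega)
    linarith
  · intro h ε hε
    have hfin := h ε hε
    obtain ⟨M, hM⟩ := (hfin.image (fun v : ℕ × ℕ => v.1 + v.2)).bddAbove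
    refine ⟨M + 1, fun v hv => ?_⟩
    by_contra hcon
    have := hM ⟨v, not_lt.mp hcon, rfl⟩
    simp only at this
    omega

/-- the element of `C₀` -/
noncomputable def toX (y : ℕ × ℕ → ℂ) (hy : Zt y) : C₀(ℕ × ℕ, ℂ) :=
  ⟨⟨y, continuous_of_discreteTopology⟩, (Zt_iff y).mp hy⟩

@[simp] theorem toX_apply (y : ℕ × ℕ → ℂ) (hy : Zt y) (v : ℕ × ℕ) : toX y hy v = y v := rfl

theorem Zt_X (x : C₀(ℕ × ℕ, ℂ)) : Zt x := (Zt_iff _).mpr x.zero_at_infty'

theorem X_norm_le (x : C₀(ℕ × ℕ, ℂ)) (c : ℝ) (hc : 0 ≤ c) (h : ∀ v, ‖x v‖ ≤ c) : ‖x‖ ≤ c := by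
  rw [← ZeroAtInftyContinuousMap.norm_toBCF_eq_norm]
  exact (BoundedContinuousFunction.norm_le hc).mpr h

theorem X_le_norm (x : C₀(ℕ × ℕ, ℂ)) (v : ℕ × ℕ) : ‖x v‖ ≤ ‖x‖ := by
  rw [← ZeroAtInftyContinuousMap.norm_toBCF_eq_norm]
  exact x.toBCF.norm_coe_le_norm v

theorem Zt_op (lam : ℂ) (x : C₀(ℕ × ℕ, ℂ)) : Zt (Dd (fun u => lam * J x (phi u))) := by
  have h1 : Zt (Dd (J x ∘ phi)) := Zt_comp (J x) (by rw [Dd_J]; exact Zt_X x)
  have h2 : Dd (fun u => lam * J x (phi u)) = fun v => lam * Dd (J x ∘ phi) v := by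
    funext v; exact Dd_smul lam (J x ∘ phi) v
  rw [h2]; exact Zt_smul lam _ h1

/-- the operator `λ C_φ` transported to `C₀` -/
noncomputable def opA (lam : ℂ) : C₀(ℕ × ℕ, ℂ) →L[ℂ] C₀(ℕ × ℕ, ℂ) :=
  LinearMap.mkContinuous
    { toFun := fun x => toX (Dd (fun u => lam * J x (phi u))) (Zt_op lam x)
      map_add' := by
        intro x y
        ext v
        simp only [toX_apply, ZeroAtInftyContinuousMap.coe_add, Pi.add_apply]
        rw [← Dd_add (fun u => lam * J x (phi u)) (fun u => lam * J y (phi u)) v]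
        congr 1
        funext u
        have := congrFun (J_add x y) (phi u)
        rw [← mul_add, ← this]; rfl
      map_smul' := by
        intro c x
        ext v
        simp only [toX_apply, ZeroAtInftyContinuousMap.coe_smul, Pi.smul_apply, smul_eq_mul,
          RingHom.id_apply]
        rw [← Dd_smul c (fun u => lam * J x (phi u)) v]
        congr 1
        funext u
        have := congrFun (J_smul c x) (phi u)
        have h2 : J (c • ⇑x) (phi u) = c * J x (phi u) := by rw [← this]; rfl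
        rw [h2]; ring }
    (2 * ‖lam‖) (by
      intro x
      apply X_norm_le _ _ (by positivity)
      intro v
      show ‖Dd (fun u => lam * J x (phi u)) v‖ ≤ _
      have h1 : Dd (fun u => lam * J x (phi u)) v = lam * Dd (J x ∘ phi) v :=
        Dd_smul lam (J x ∘ phi) v
      rw [h1, norm_mul]
      have h2 := comp_bound (J x) ‖x‖ (fun w => by rw [Dd_J]; exact X_le_norm x w) v
      calc ‖lam‖ * ‖Dd (J x ∘ phi) v‖ ≤ ‖lam‖ * (2 * ‖x‖) :=
            mul_le_mul_of_nonneg_left h2 (norm_nonneg _)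
        _ = 2 * ‖lam‖ * ‖x‖ := by ring)

theorem opA_apply (lam : ℂ) (x : C₀(ℕ × ℕ, ℂ)) (v : ℕ × ℕ) :
    opA lam x v = Dd (fun u => lam * J x (phi u)) v := rfl

theorem J_opA_pow (lam : ℂ) (x : C₀(ℕ × ℕ, ℂ)) (n : ℕ) :
    J ((opA lam ^ n) x) = fun u => lam ^ n * J x (phi^[n] u) := by
  induction n with
  | zero => funext u; simp
  | succ n ih =>
    rw [pow_succ']
    have h1 : (⇑((opA lam * opA lam ^ n) x) : ℕ × ℕ → ℂ)
        = Dd (fun u => lam * J ((opA lam ^ n) x) (phi u)) := by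
      funext v; exact opA_apply lam _ v
    rw [h1, J_Dd]
    funext u
    rw [ih]
    simp only []
    rw [Function.iterate_succ_apply, pow_succ]; ring

theorem opA_pow_apply (lam : ℂ) (x : C₀(ℕ × ℕ, ℂ)) (n : ℕ) (v : ℕ × ℕ) :
    (opA lam ^ n) x v = Dd (fun u => lam ^ n * J x (phi^[n] u)) v := by
  rw [← J_opA_pow, Dd_J]

theorem Zt_of_finite (y : ℕ × ℕ → ℂ) (hy : (Function.support y).Finite) : Zt y := by
  intro ε hε
  obtain ⟨M, hM⟩ := (hy.image (fun v : ℕ × ℕ => v.1 + v.2)).bddAbove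
  refine ⟨M + 1, fun v hv => ?_⟩
  have h0 : y v = 0 := by
    by_contra hcon
    have := hM ⟨v, hcon, rfl⟩
    simp only at this
    omega
  rw [h0, norm_zero]; exact hε

theorem Dd_finite (g : ℕ × ℕ → ℂ) (hg : (Function.support g).Finite) :
    (Function.support (Dd g)).Finite := by
  obtain ⟨M, hM⟩ := (hg.image (fun v : ℕ × ℕ => v.1 + v.2)).bddAbove
  have hz : ∀ v : ℕ × ℕ, M < v.1 + v.2 → g v = 0 := by
    intro v hv
    by_contra hcon
    have := hM ⟨v, hcon, rfl⟩
    simp only at this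
    omega
  refine ((Set.finite_Iic (M + 1)).prod (Set.finite_Iic (M + 1))).subset ?_
  rintro ⟨k, i⟩ hv
  simp only [Function.mem_support, ne_eq] at hv
  simp only [Set.mem_prod, Set.mem_Iic]
  by_contra hcon
  apply hv
  match k, i with
  | 0, 0 => simp at hcon
  | k, i + 1 =>
    rw [Dd_succ, hz (k, i + 1) (by simp; omega), hz (k, i) (by simp; omega), sub_zero]
  | k + 1, 0 =>
    rw [Dd_up, hz (k + 1, 0) (by simp; omega), hz (k, 0) (by simp; omega), sub_zero]

/-- finitely supported functions give a dense set -/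
theorem dense_fin (x : C₀(ℕ × ℕ, ℂ)) (ε : ℝ) (hε : 0 < ε) :
    ∃ (g : ℕ × ℕ → ℂ) (hg : (Function.support g).Finite),
      ‖toX (Dd g) (Zt_of_finite _ (Dd_finite g hg)) - x‖ ≤ ε := by
  obtain ⟨g, hg1, hg2⟩ := dens (J x) (by rw [Dd_J]; exact Zt_X x) ε hε
  refine ⟨g, hg1, X_norm_le _ _ hε.le fun v => ?_⟩
  have h1 := hg2 v
  rw [Dd_sub, Dd_J] at h1
  exact h1

instance : SeparableSpace C₀(ℕ × ℕ, ℂ) := by
  classical
  -- the countable set
  let e : ℕ × ℕ → C₀(ℕ × ℕ, ℂ) := fun v =>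
    toX (fun u => if u = v then 1 else 0) (Zt_of_finite _ ((Set.finite_singleton v).subset (by
      intro u hu
      simp only [Function.mem_support, ne_eq, ite_eq_right_iff, one_ne_zero, imp_false,
        not_not] at hu
      exact hu)))
  have hsep : IsSeparable (closure (Submodule.span ℂ (Set.range e) : Set C₀(ℕ × ℕ, ℂ))) :=
    ((Set.countable_range e).isSeparable.span (R := ℂ)).closure
  have huniv : closure (Submodule.span ℂ (Set.range e) : Set C₀(ℕ × ℕ, ℂ)) = Set.univ := by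
    refine Set.eq_univ_of_forall fun x => ?_
    rw [Metric.mem_closure_iff]
    intro ε hε
    obtain ⟨g, hg, h1⟩ := dense_fin x (ε / 2) (by linarith)
    refine ⟨toX (Dd g) (Zt_of_finite _ (Dd_finite g hg)), ?_, ?_⟩
    · have hrep : toX (Dd g) (Zt_of_finite _ (Dd_finite g hg))
          = ∑ v ∈ (Dd_finite g hg).toFinset, Dd g v • e v := by
        ext u
        have hsum : ∀ (s : Finset (ℕ × ℕ)), (∑ v ∈ s, Dd g v • e v) u
            = ∑ v ∈ s, Dd g v * (if u = v then 1 else 0) := by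
          intro s
          induction s using Finset.induction_on with
          | empty => simp
          | insert a s ha ih =>
            rw [Finset.sum_insert ha, Finset.sum_insert ha, ← ih]; rfl
        rw [hsum, toX_apply, Finset.sum_eq_single u]
        · simp
        · intro v _ hv; rw [if_neg (Ne.symm hv), mul_zero]
        · intro hu
          have : Dd g u = 0 := by simpa using hu
          rw [this, zero_mul]
      rw [hrep]
      exact Submodule.sum_mem _ fun v _ => Submodule.smul_mem _ _ (Submodule.subset_span ⟨v, rfl⟩)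
    · rw [dist_comm, dist_eq_norm]; linarith
  rw [huniv] at hsep
  exact isSeparable_univ_iff.mp hsep

/-- The hypercyclic function. -/
theorem hyper (lam : ℂ) (h1 : 1 / 2 < ‖lam‖) (h2 : ‖lam‖ < 1) :
    ∃ f : ℕ × ℕ → ℂ, Zt (Dd f) ∧ ∀ g : ℕ × ℕ → ℂ, Zt (Dd g) → ∀ ε > 0, ∃ n : ℕ,
      ∀ v, ‖Dd (fun u => lam ^ n * f (phi^[n] u) - g u) v‖ ≤ ε := by
  have key : ∃ x : C₀(ℕ × ℕ, ℂ), ∀ y : C₀(ℕ × ℕ, ℂ), ∀ ε > 0, ∃ n : ℕ,
      ‖(opA lam ^ n) x - y‖ < ε := by
    apply exists_hc (opA lam)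
    · -- dense set of vectors with orbit tending to zero
      intro x ε hε
      obtain ⟨g, hg, h3⟩ := dense_fin x ε hε
      refine ⟨_, h3, ?_⟩
      obtain ⟨c, hc0, hc⟩ := Zt_bound g (Zt_of_finite g hg)
      rw [tendsto_zero_iff_norm_tendsto_zero]
      have h4 : Tendsto (fun n : ℕ => ‖lam‖ ^ n * (2 * c)) atTop (𝓝 (0 * (2 * c))) :=
        (tendsto_pow_atTop_nhds_zero_of_lt_one (norm_nonneg _) h2).mul_const _
      rw [zero_mul] at h4
      refine squeeze_zero (fun _ => norm_nonneg _) (fun n => ?_) h4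
      apply X_norm_le _ _ (by positivity)
      intro v
      rw [opA_pow_apply]
      have h5 : J (⇑(toX (Dd g) (Zt_of_finite _ (Dd_finite g hg)))) = g := J_Dd g
      rw [h5]
      have h6 : ∀ u, ‖lam ^ n * g (phi^[n] u)‖ ≤ ‖lam‖ ^ n * c := fun u => by
        rw [norm_mul, norm_pow]; exact mul_le_mul_of_nonneg_left (hc _) (by positivity)
      unfold Dd
      split_ifs
      · have := h6 v
        have h7 : 0 ≤ ‖lam‖ ^ n * c := by positivity
        linarith
      · refine (norm_sub_le _ _).trans ?_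
        have := h6 v
        have := h6 (par v)
        linarith
    · intro x ε hε
      obtain ⟨N, hN⟩ := appr_all lam h1 h2 (J x) (by rw [Dd_J]; exact Zt_X x) ε hε
      refine ⟨N, fun n hn => ?_⟩
      obtain ⟨h, hs, hh1, hh2⟩ := hN n hn
      refine ⟨toX (Dd h) (Zt_of_finite _ (Dd_finite h hs)), X_norm_le _ _ hε.le hh1,
        X_norm_le _ _ hε.le fun v => ?_⟩
      have h5 : J (⇑(toX (Dd h) (Zt_of_finite _ (Dd_finite h hs)))) = h := J_Dd h
      show ‖(opA lam ^ n) (toX (Dd h) (Zt_of_finite _ (Dd_finite h hs))) v - x v‖ ≤ ε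
      rw [opA_pow_apply, h5]
      have h6 := hh2 v
      rw [Dd_sub (fun u => lam ^ n * h (phi^[n] u)) (J x) v, Dd_J] at h6
      exact h6
  obtain ⟨x, hx⟩ := key
  refine ⟨J x, by rw [Dd_J]; exact Zt_X x, fun g hg ε hε => ?_⟩
  obtain ⟨n, hn⟩ := hx (toX (Dd g) hg) ε hε
  refine ⟨n, fun v => ?_⟩
  have h3 := (X_le_norm ((opA lam ^ n) x - toX (Dd g) hg) v).trans hn.le
  rw [Dd_sub (fun u => lam ^ n * J x (phi^[n] u)) g v, ← opA_pow_apply]
  exact h3

end Q57.LT
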