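import Mathlib

/-! A hypercyclicity criterion via Baire category. -/

set_option autoImplicit false

namespace Q57.LT

open Filter Topology TopologicalSpace

theorem exists_hc {X : Type*} [NormedAddCommGroup X] [NormedSpace ℂ X] [CompleteSpace X]
    [SeparableSpace X] (A : X →L[ℂ] X)
    (hX0 : ∀ x : X, ∀ ε > 0, ∃ y, ‖y - x‖ ≤ ε ∧ Tendsto (fun n : ℕ => (A ^ n) y) atTop (𝓝 0))
    (hY : ∀ x : X, ∀ ε > 0, ∃ N : ℕ, ∀ n ≥ N, ∃ h, ‖h‖ ≤ ε ∧ ‖(A ^ n) h - x‖ ≤ ε) :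
    ∃ x : X, ∀ y : X, ∀ ε > 0, ∃ n : ℕ, ‖(A ^ n) x - y‖ < ε := by
  have : Nonempty X := ⟨0⟩
  let U : ℕ × ℕ → Set X := fun p => ⋃ n : ℕ, {x | ‖(A ^ n) x - denseSeq X p.1‖ < 1 / ((p.2 : ℝ) + 1)}
  have hopen : ∀ p, IsOpen (U p) := by
    intro p
    refine isOpen_iUnion fun n => ?_
    exact isOpen_lt (((A ^ n).continuous.sub continuous_const).norm) continuous_const
  have hdense : ∀ p, Dense (U p) := by
    intro p
    rw [Metric.dense_iff]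
    intro x r hr
    obtain ⟨y, hy1, hy2⟩ := hX0 x (r / 3) (by linarith)
    have hq : (0 : ℝ) < 1 / ((p.2 : ℝ) + 1) := by positivity
    obtain ⟨δ, hδ⟩ : ∃ δ, δ = min (r / 3) (1 / ((p.2 : ℝ) + 1) / 3) := ⟨_, rfl⟩
    have hδ0 : 0 < δ := by rw [hδ]; apply lt_min <;> positivity
    obtain ⟨N, hN⟩ := hY (denseSeq X p.1) δ hδ0
    have hy3 := hy2.norm
    rw [norm_zero] at hy3
    obtain ⟨M, hM⟩ := (hy3.eventually (gt_mem_nhds hδ0)).exists_forall_of_atTop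
    obtain ⟨h, hh1, hh2⟩ := hN (max N M) (le_max_left _ _)
    have hM' := hM (max N M) (le_max_right _ _)
    refine ⟨y + h, ?_, ?_⟩
    · rw [Metric.mem_ball, dist_eq_norm]
      have h1 : ‖y + h - x‖ ≤ ‖y - x‖ + ‖h‖ := by
        rw [show y + h - x = (y - x) + h by abel]; exact norm_add_le _ _
      have h2 : δ ≤ r / 3 := by rw [hδ]; exact min_le_left _ _
      linarith
    · refine Set.mem_iUnion.mpr ⟨max N M, ?_⟩
      show ‖(A ^ max N M) (y + h) - denseSeq X p.1‖ < 1 / ((p.2 : ℝ) + 1)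
      have h1 : ‖(A ^ max N M) (y + h) - denseSeq X p.1‖
          ≤ ‖(A ^ max N M) y‖ + ‖(A ^ max N M) h - denseSeq X p.1‖ := by
        rw [map_add, add_sub_assoc]; exact norm_add_le _ _
      have h2 : δ ≤ 1 / ((p.2 : ℝ) + 1) / 3 := by rw [hδ]; exact min_le_right _ _
      linarith
  obtain ⟨x, hx⟩ := (dense_iInter_of_isOpen hopen hdense).nonempty
  refine ⟨x, fun y ε hε => ?_⟩
  obtain ⟨m, hm⟩ := exists_nat_one_div_lt (half_pos hε)
  obtain ⟨z, ⟨i, hi⟩, hz⟩ := (denseRange_denseSeq X).exists_dist_lt y (half_pos hε) |>.imp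
    fun i hi => (⟨⟨i, rfl⟩, hi⟩ : (∃ j, j = i) ∧ _)
  have hx2 := Set.mem_iInter.mp hx (z, m)
  obtain ⟨n, hn⟩ := Set.mem_iUnion.mp hx2
  refine ⟨n, ?_⟩
  have h1 : ‖(A ^ n) x - y‖ ≤ ‖(A ^ n) x - denseSeq X z‖ + ‖denseSeq X z - y‖ := by
    rw [show (A ^ n) x - y = ((A ^ n) x - denseSeq X z) + (denseSeq X z - y) by abel]
    exact norm_add_le _ _
  have h2 : ‖denseSeq X z - y‖ < ε / 2 := by rw [← dist_eq_norm, dist_comm]; exact hz
  have h3 : ‖(A ^ n) x - denseSeq X z‖ < 1 / ((m : ℝ) + 1) := hn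
  linarith

end Q57.LT
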