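import Pool.Agent.Q57.LT.Approx
import Pool.Agent.Q57.LT.HC

/-! Hypercyclicity of `λ C_φ` on the little Lipschitz space of the comb. -/

set_option autoImplicit false

namespace Q57.LT

open Filter Topology TopologicalSpace

/-- tends to zero at infinity -/
def Zt (y : ℕ × ℕ → ℂ) : Prop := ∀ ε > 0, ∃ M : ℕ, ∀ v : ℕ × ℕ, M ≤ v.1 + v.2 → ‖y v‖ < ε

theorem comp_local (f : ℕ × ℕ → ℂ) (v : ℕ × ℕ) :
    ∃ a b : ℕ × ℕ, v.1 + v.2 ≤ a.1 + a.2 + 1 ∧ v.1 + v.2 ≤ b.1 + b.2 + 1 ∧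
      ‖Dd (f ∘ phi) v‖ ≤ ‖Dd f a‖ + ‖Dd f b‖ := by
  obtain ⟨k, i⟩ := v
  match k, i with
  | 0, 0 =>
    refine ⟨(0, 1), (0, 0), by simp, by simp, ?_⟩
    rw [Dd_root]
    have : (f ∘ phi) (0, 0) = Dd f (0, 1) + Dd f (0, 0) := by
      rw [Dd_succ, Dd_root]; simp [phi]
    rw [this]; exact norm_add_le _ _
  | 0, i + 1 =>
    refine ⟨(0, 2 * i + 2 + 1), (0, 2 * i + 1 + 1), by simp; omega, by simp; omega, ?_⟩
    rw [Dd_succ]
    have : (f ∘ phi) (0, i + 1) - (f ∘ phi) (0, i) = Dd f (0, 2 * i + 2 + 1) + Dd f (0, 2 * i + 1 + 1) := by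
      rw [Dd_succ, Dd_succ]
      simp only [Function.comp_apply, phi]
      rw [show 2 * (i + 1) + 1 = 2 * i + 2 + 1 by ring, show 2 * i + 2 = 2 * i + 1 + 1 by ring]
      ring
    rw [this]; exact norm_add_le _ _
  | 1, 0 =>
    refine ⟨(0, 0 + 1), (0, 0 + 1), by simp, by simp, ?_⟩
    have h := Dd_up (f ∘ phi) 0
    rw [Nat.zero_add] at h
    rw [h]
    have : (f ∘ phi) (1, 0) - (f ∘ phi) (0, 0) = - Dd f (0, 0 + 1) := by
      rw [Dd_succ]; simp [phi]
    rw [this, norm_neg]; linarith [norm_nonneg (Dd f (0, 0 + 1))]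
  | 1, i + 1 =>
    refine ⟨(0, 2 * i + 1 + 1), (0, 2 * i + 1), by simp; omega, by simp; omega, ?_⟩
    rw [Dd_succ]
    have : (f ∘ phi) (1, i + 1) - (f ∘ phi) (1, i) = Dd f (0, 2 * i + 1 + 1) + Dd f (0, 2 * i + 1) := by
      rw [Dd_succ, Dd_succ]
      simp only [Function.comp_apply, phi]
      rw [show 2 * (i + 1) = 2 * i + 1 + 1 by ring]
      ring
    rw [this]; exact norm_add_le _ _
  | 2, 0 =>
    refine ⟨(0 + 1, 0), (0 + 1, 0), by simp, by simp, ?_⟩
    have h := Dd_up (f ∘ phi) 1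
    norm_num at h
    rw [h]
    have : (f ∘ phi) (2, 0) - (f ∘ phi) (1, 0) = Dd f (0 + 1, 0) := by
      rw [Dd_up]; simp [phi]
    simp only [Function.comp_apply] at this
    rw [this]; linarith [norm_nonneg (Dd f (0 + 1, 0))]
  | k + 3, 0 =>
    refine ⟨(k + 1 + 1, 0), (k + 1 + 1, 0), by simp, by simp, ?_⟩
    have h := Dd_up (f ∘ phi) (k + 2)
    rw [show k + 2 + 1 = k + 3 by ring] at h
    rw [h]
    have : (f ∘ phi) (k + 3, 0) - (f ∘ phi) (k + 2, 0) = Dd f (k + 1 + 1, 0) := by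
      rw [Dd_up]; simp [phi]
    rw [this]; linarith [norm_nonneg (Dd f (k + 1 + 1, 0))]
  | k + 2, i + 1 =>
    refine ⟨(k + 1, i + 1), (k + 1, i + 1), by simp; omega, by simp; omega, ?_⟩
    rw [Dd_succ]
    have : (f ∘ phi) (k + 2, i + 1) - (f ∘ phi) (k + 2, i) = Dd f (k + 1, i + 1) := by
      rw [Dd_succ]; simp [phi]
    rw [this]; linarith [norm_nonneg (Dd f (k + 1, i + 1))]

theorem Zt_comp (f : ℕ × ℕ → ℂ) (hf : Zt (Dd f)) : Zt (Dd (f ∘ phi)) := by
  intro ε hε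
  obtain ⟨M, hM⟩ := hf (ε / 2) (by linarith)
  refine ⟨M + 1, fun v hv => ?_⟩
  obtain ⟨a, b, ha, hb, h⟩ := comp_local f v
  have h1 := hM a (by omega)
  have h2 := hM b (by omega)
  linarith

theorem Zt_smul (c : ℂ) (y : ℕ × ℕ → ℂ) (hy : Zt y) : Zt (fun v => c * y v) := by
  intro ε hε
  obtain ⟨M, hM⟩ := hy (ε / (‖c‖ + 1)) (by positivity)
  refine ⟨M, fun v hv => ?_⟩
  have h := hM v hv
  rw [lt_div_iff₀ (by positivity)] at h
  rw [norm_mul]
  nlinarith [norm_nonneg (y v), norm_nonneg c]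

theorem Zt_bound (y : ℕ × ℕ → ℂ) (hy : Zt y) : ∃ c, 0 ≤ c ∧ ∀ v, ‖y v‖ ≤ c := by
  obtain ⟨M, hM⟩ := hy 1 one_pos
  have hfin : (Set.Iic M ×ˢ Set.Iic M : Set (ℕ × ℕ)).Finite :=
    (Set.finite_Iic M).prod (Set.finite_Iic M)
  obtain ⟨B, hB⟩ := (hfin.image (fun v => ‖y v‖)).bddAbove
  refine ⟨max B 1, le_max_of_le_right zero_le_one, fun v => ?_⟩
  rcases Nat.lt_or_ge (v.1 + v.2) M with h | h
  · exact le_max_of_le_left (hB ⟨v, ⟨by simp; omega, by simp; omega⟩, rfl⟩)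
  · exact le_max_of_le_right (hM v h).le

/-- finitely supported functions are dense -/
theorem dens (f : ℕ × ℕ → ℂ) (hf : Zt (Dd f)) (ε : ℝ) (hε : 0 < ε) :
    ∃ g : ℕ × ℕ → ℂ, (Function.support g).Finite ∧ ∀ v, ‖Dd (fun u => g u - f u) v‖ ≤ ε := by
  obtain ⟨M, hM⟩ := hf (ε / 2) (by linarith)
  let tau : ℕ × ℕ → ℕ × ℕ := fun v => if M ≤ v.1 then (M, 0) else (v.1, min v.2 (M - v.1))
  have htau : ∀ v, tau v ∈ (Set.Iic M ×ˢ Set.Iic M : Set (ℕ × ℕ)) := by
    intro v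
    simp only [tau]
    split_ifs with h
    · simp
    · simp only [Set.mem_prod, Set.mem_Iic]; omega
  have hfin : (Set.Iic M ×ˢ Set.Iic M : Set (ℕ × ℕ)).Finite :=
    (Set.finite_Iic M).prod (Set.finite_Iic M)
  obtain ⟨B0, hB0⟩ := (hfin.image (fun v => ‖f v‖)).bddAbove
  obtain ⟨B, hBd⟩ : ∃ B, B = max B0 1 := ⟨_, rfl⟩
  have hBpos : 0 < B := by rw [hBd]; exact lt_max_of_lt_right one_pos
  have hB : ∀ v, ‖f (tau v)‖ ≤ B := fun v => by
    rw [hBd]; exact le_max_of_le_left (hB0 ⟨tau v, htau v, rfl⟩)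
  obtain ⟨δ, hδd⟩ : ∃ δ, δ = ε / (2 * B) := ⟨_, rfl⟩
  have hδ : 0 < δ := by rw [hδd]; positivity
  have hBδ : B * δ = ε / 2 := by rw [hδd]; field_simp
  let kap : ℕ → ℝ := fun s => max 0 (1 - δ * ((s - M : ℕ) : ℝ))
  have hkap1 : ∀ s, s ≤ M → kap s = 1 := by
    intro s hs
    simp only [kap]
    rw [Nat.sub_eq_zero_of_le hs]; simp
  have hkapstep : ∀ s, |kap (s + 1) - kap s| ≤ δ := by
    intro s
    simp only [kap]
    refine (abs_max_sub_max_le_max _ _ _ _).trans ?_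
    rw [sub_self, abs_zero]
    apply max_le hδ.le
    have h1 : ((s + 1 - M : ℕ) : ℝ) - ((s - M : ℕ) : ℝ) ∈ Set.Icc (0 : ℝ) 1 := by
      rcases Nat.lt_or_ge s M with h | h
      · rw [show s + 1 - M = 0 by omega, show s - M = 0 by omega]; simp
      · rw [show s + 1 - M = (s - M) + 1 by omega]; push_cast; simp
    rw [show (1 - δ * ((s + 1 - M : ℕ) : ℝ) - (1 - δ * ((s - M : ℕ) : ℝ)))
      = -(δ * (((s + 1 - M : ℕ) : ℝ) - ((s - M : ℕ) : ℝ))) by ring, abs_neg, abs_mul,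
      abs_of_pos hδ, abs_of_nonneg h1.1]
    nlinarith [h1.2]
  refine ⟨fun v => f (tau v) * (kap (v.1 + v.2) : ℂ), ?_, ?_⟩
  · -- finite support
    obtain ⟨K, hK⟩ := exists_nat_gt (1 / δ)
    refine Set.Finite.subset (s := (Set.Iic (M + K) ×ˢ Set.Iic (M + K) : Set (ℕ × ℕ)))
      ((Set.finite_Iic _).prod (Set.finite_Iic _)) ?_
    intro v hv
    simp only [Function.mem_support, ne_eq, mul_eq_zero, not_or] at hv
    by_contra hcon
    apply hv.2
    have h1 : M + K < v.1 + v.2 := by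
      simp only [Set.mem_prod, Set.mem_Iic, not_and_or] at hcon
      omega
    have h2 : kap (v.1 + v.2) = 0 := by
      simp only [kap]
      apply max_eq_left
      have h3 : (K : ℝ) ≤ ((v.1 + v.2 - M : ℕ) : ℝ) := by exact_mod_cast (by omega)
      have h4 : 1 < δ * K := by
        rw [div_lt_iff₀ hδ] at hK; linarith
      nlinarith
    rw [h2]; simp
  · -- estimate
    have hbase : ∀ w : ℕ × ℕ, w.1 + w.2 ≤ M → f (tau w) * (kap (w.1 + w.2) : ℂ) = f w := by
      intro w hw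
      rw [hkap1 _ hw]
      have : tau w = w := by
        obtain ⟨a, b⟩ := w
        simp only [tau] at hw ⊢
        split_ifs with h
        · simp at h hw ⊢; omega
        · simp at h hw ⊢; omega
      rw [this]; simp
    have hstep : ∀ w w' : ℕ × ℕ, tau w = tau w' → w.1 + w.2 = w'.1 + w'.2 + 1 →
        ‖f w - f w'‖ < ε / 2 →
        ‖(f (tau w) * (kap (w.1 + w.2) : ℂ) - f w) - (f (tau w') * (kap (w'.1 + w'.2) : ℂ) - f w')‖ ≤ ε := by
      intro w w' h1 h2 h3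
      rw [h1, h2]
      have h4 : (f (tau w') * (kap (w'.1 + w'.2 + 1) : ℂ) - f w) - (f (tau w') * (kap (w'.1 + w'.2) : ℂ) - f w')
        = f (tau w') * ((kap (w'.1 + w'.2 + 1) - kap (w'.1 + w'.2) : ℝ) : ℂ) - (f w - f w') := by
        push_cast; ring
      rw [h4]
      refine (norm_sub_le _ _).trans ?_
      rw [norm_mul, Complex.norm_real, Real.norm_eq_abs]
      have h5 := mul_le_mul (hB w') (hkapstep (w'.1 + w'.2)) (abs_nonneg _) hBpos.le
      linarith
    have hbase' : ∀ w : ℕ × ℕ, w.1 + w.2 ≤ M →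
        (fun v => f (tau v) * (kap (v.1 + v.2) : ℂ)) w = f w := hbase
    rintro ⟨k, i⟩
    match k, i with
    | 0, 0 =>
      rw [Dd_root, hbase' (0, 0) (by simp)]; simp [hε.le]
    | k, i + 1 =>
      rw [Dd_succ]
      rcases Nat.lt_or_ge M (k + (i + 1)) with h | h
      · apply hstep (k, i + 1) (k, i)
        · simp only [tau]
          split_ifs with h'
          · rfl
          · congr 1; omega
        · simp; omega
        · have := hM (k, i + 1) (by simp; omega)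
          rwa [Dd_succ] at this
      · rw [hbase' (k, i + 1) (by simpa using h), hbase' (k, i) (by simp; omega)]; simp [hε.le]
    | k + 1, 0 =>
      rw [Dd_up]
      rcases Nat.lt_or_ge M (k + 1) with h | h
      · apply hstep (k + 1, 0) (k, 0)
        · simp only [tau]
          rw [if_pos (by omega), if_pos (by omega)]
        · simp
        · have := hM (k + 1, 0) (by simp; omega)
          rwa [Dd_up] at this
      · rw [hbase' (k + 1, 0) (by simpa using h), hbase' (k, 0) (by simp; omega)]; simp [hε.le]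

/-- `g` is approximated by `λ^n h ∘ φ^n` with `h` small -/
def Appr (lam : ℂ) (g : ℕ × ℕ → ℂ) : Prop := ∀ ε > 0, ∃ N : ℕ, ∀ n ≥ N, ∃ h : ℕ × ℕ → ℂ,
  (Function.support h).Finite ∧ (∀ v, ‖Dd h v‖ ≤ ε) ∧
    ∀ v, ‖Dd (fun u => lam ^ n * h (phi^[n] u) - g u) v‖ ≤ ε

theorem phi_iter_inj (n : ℕ) : Function.Injective (phi^[n]) := phi_bijective.1.iterate n

theorem appr_comp (lam : ℂ) (h1 : 1 / 2 < ‖lam‖) (g : ℕ × ℕ → ℂ) (hg : Appr lam g) (k : ℕ) :
    Appr lam (g ∘ phi^[k]) := by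
  have hlam : lam ≠ 0 := norm_pos_iff.mp (by linarith)
  have hr0 : 0 < ‖lam‖ := by linarith
  intro ε hε
  obtain ⟨δ, hδd⟩ : ∃ δ, δ = min (ε / 2 ^ k) (ε * ‖lam‖ ^ k) := ⟨_, rfl⟩
  have hδ : 0 < δ := by rw [hδd]; apply lt_min <;> positivity
  have hδ1 : δ ≤ ε / 2 ^ k := by rw [hδd]; exact min_le_left _ _
  have hδ2 : δ ≤ ε * ‖lam‖ ^ k := by rw [hδd]; exact min_le_right _ _
  obtain ⟨N, hN⟩ := hg δ hδ
  refine ⟨N + k, fun n hn => ?_⟩
  obtain ⟨m, rfl⟩ : ∃ m, n = m + k := ⟨n - k, by omega⟩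
  obtain ⟨h, hs, hh1, hh2⟩ := hN m (by omega)
  refine ⟨fun v => (lam ^ k)⁻¹ * h v, ?_, ?_, ?_⟩
  · refine hs.subset ?_
    intro v hv
    simp only [Function.mem_support, ne_eq, mul_eq_zero, not_or] at hv ⊢
    exact hv.2
  · intro v
    rw [Dd_smul, norm_mul, norm_inv, norm_pow]
    have h2 : ‖Dd h v‖ ≤ ε * ‖lam‖ ^ k := (hh1 v).trans hδ2
    rw [inv_mul_le_iff₀ (by positivity)]
    linarith
  · intro v
    have h2 := comp_iter_bound (fun u => lam ^ m * h (phi^[m] u) - g u) δ hh2 k v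
    have h3 : (fun u => lam ^ (m + k) * ((lam ^ k)⁻¹ * h (phi^[m + k] u)) - (g ∘ phi^[k]) u)
        = (fun u => lam ^ m * h (phi^[m] u) - g u) ∘ phi^[k] := by
      funext u
      simp only [Function.comp_apply]
      rw [Function.iterate_add_apply, pow_add, mul_assoc (lam ^ m), ← mul_assoc (lam ^ k),
        mul_inv_cancel₀ (pow_ne_zero k hlam), one_mul]
    rw [h3]
    refine h2.trans ?_
    rw [le_div_iff₀ (by positivity)] at hδ1
    linarith

theorem appr_single (lam : ℂ) (h1 : 1 / 2 < ‖lam‖) (h2 : ‖lam‖ < 1) (v : ℕ × ℕ) :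
    Appr lam (fun u => if u = v then 1 else 0) := by
  obtain ⟨k, i⟩ := v
  match k with
  | 0 => exact fun ε hε => core lam h1 h2 i ε hε
  | k + 1 =>
    have h3 : phi^[k + 1] (k + 1, i) = (0, 2 * i) := by
      rw [phi_iter_ge (k + 1) (k + 1) i (by omega) le_rfl]; simp
    have h4 := appr_comp lam h1 _ (fun ε hε => core lam h1 h2 (2 * i) ε hε) (k + 1)
    have h5 : (fun u : ℕ × ℕ => if u = (0, 2 * i) then (1 : ℂ) else 0) ∘ phi^[k + 1]
        = fun u => if u = (k + 1, i) then 1 else 0 := by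
      funext u
      simp only [Function.comp_apply]
      rw [← h3]
      by_cases hu : u = (k + 1, i)
      · rw [hu]; simp
      · rw [if_neg hu, if_neg (fun h => hu (phi_iter_inj (k + 1) h))]
    rwa [h5] at h4

theorem appr_add (lam : ℂ) (g g' : ℕ × ℕ → ℂ) (hg : Appr lam g) (hg' : Appr lam g') :
    Appr lam (fun u => g u + g' u) := by
  intro ε hε
  obtain ⟨N, hN⟩ := hg (ε / 2) (by linarith)
  obtain ⟨N', hN'⟩ := hg' (ε / 2) (by linarith)
  refine ⟨max N N', fun n hn => ?_⟩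
  obtain ⟨h, hs, h1, h2⟩ := hN n (le_of_max_le_left hn)
  obtain ⟨h', hs', h1', h2'⟩ := hN' n (le_of_max_le_right hn)
  refine ⟨fun u => h u + h' u, ?_, ?_, ?_⟩
  · exact (hs.union hs').subset (Function.support_add h h')
  · intro v
    rw [Dd_add]
    exact (norm_add_le _ _).trans (by linarith [h1 v, h1' v])
  · intro v
    have h3 : (fun u => lam ^ n * (h (phi^[n] u) + h' (phi^[n] u)) - (g u + g' u))
        = fun u => (lam ^ n * h (phi^[n] u) - g u) + (lam ^ n * h' (phi^[n] u) - g' u) := by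
      funext u; ring
    rw [h3, Dd_add (fun u => lam ^ n * h (phi^[n] u) - g u)]
    exact (norm_add_le _ _).trans (by linarith [h2 v, h2' v])

theorem appr_smul (lam c : ℂ) (g : ℕ × ℕ → ℂ) (hg : Appr lam g) :
    Appr lam (fun u => c * g u) := by
  intro ε hε
  obtain ⟨N, hN⟩ := hg (ε / (‖c‖ + 1)) (by positivity)
  refine ⟨N, fun n hn => ?_⟩
  obtain ⟨h, hs, h1, h2⟩ := hN n hn
  have hb : ∀ z : ℂ, ‖z‖ ≤ ε / (‖c‖ + 1) → ‖c * z‖ ≤ ε := by
    intro z hz
    rw [le_div_iff₀ (by positivity)] at hz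
    rw [norm_mul]
    nlinarith [norm_nonneg z, norm_nonneg c]
  refine ⟨fun u => c * h u, ?_, ?_, ?_⟩
  · refine hs.subset ?_
    intro v hv
    simp only [Function.mem_support, ne_eq, mul_eq_zero, not_or] at hv ⊢
    exact hv.2
  · intro v
    rw [Dd_smul]; exact hb _ (h1 v)
  · intro v
    have h3 : (fun u => lam ^ n * (c * h (phi^[n] u)) - c * g u)
        = fun u => c * (lam ^ n * h (phi^[n] u) - g u) := by
      funext u; ring
    rw [h3, Dd_smul]; exact hb _ (h2 v)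

theorem appr_zero (lam : ℂ) : Appr lam (fun _ => 0) := by
  intro ε hε
  refine ⟨0, fun n _ => ⟨fun _ => 0, by simp, ?_, ?_⟩⟩
  · intro v; simp [Dd, hε.le]
  · intro v; simp [Dd, hε.le]

theorem appr_finite (lam : ℂ) (h1 : 1 / 2 < ‖lam‖) (h2 : ‖lam‖ < 1) (g : ℕ × ℕ → ℂ)
    (hg : (Function.support g).Finite) : Appr lam g := by
  classical
  have hrep : g = fun u => ∑ v ∈ hg.toFinset, g v * (if u = v then 1 else 0) := by
    funext u
    rw [Finset.sum_eq_single u]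
    · simp
    · intro v _ hv; rw [if_neg (Ne.symm hv), mul_zero]
    · intro hu
      have : g u = 0 := by simpa using hu
      rw [this, zero_mul]
  rw [hrep]
  generalize hg.toFinset = s
  induction s using Finset.induction_on with
  | empty => simpa using appr_zero lam
  | insert a s ha ih =>
    have h3 : (fun u => ∑ v ∈ insert a s, g v * (if u = v then (1 : ℂ) else 0))
        = fun u => g a * (if u = a then 1 else 0) + ∑ v ∈ s, g v * (if u = v then 1 else 0) := by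
      funext u; rw [Finset.sum_insert ha]
    rw [h3]
    exact appr_add lam _ _ (appr_smul lam (g a) _ (appr_single lam h1 h2 a)) ih

theorem appr_all (lam : ℂ) (h1 : 1 / 2 < ‖lam‖) (h2 : ‖lam‖ < 1) (f : ℕ × ℕ → ℂ)
    (hf : Zt (Dd f)) : Appr lam f := by
  intro ε hε
  obtain ⟨g, hg1, hg2⟩ := dens f hf (ε / 2) (by linarith)
  obtain ⟨N, hN⟩ := appr_finite lam h1 h2 g hg1 (ε / 2) (by linarith)
  refine ⟨N, fun n hn => ?_⟩
  obtain ⟨h, hs, hh1, hh2⟩ := hN n hn
  refine ⟨h, hs, fun v => (hh1 v).trans (by linarith), fun v => ?_⟩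
  have h3 : (fun u => lam ^ n * h (phi^[n] u) - f u)
      = fun u => (lam ^ n * h (phi^[n] u) - g u) + (g u - f u) := by
    funext u; ring
  rw [h3, Dd_add (fun u => lam ^ n * h (phi^[n] u) - g u)]
  exact (norm_add_le _ _).trans (by linarith [hh2 v, hg2 v])

end Q57.LT
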