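import Mathlib

/-! Trees given by a parent function and a size function. -/

set_option autoImplicit false

namespace Q57.LT

variable {V : Type} (root : V) (par : V → V) (size : V → ℕ)

/-- the graph joining every vertex different from the root to its parent -/
def pgraph (hne : ∀ v, v ≠ root → par v ≠ v) : SimpleGraph V where
  Adj u v := (u ≠ root ∧ par u = v) ∨ (v ≠ root ∧ par v = u)
  symm := ⟨fun _ _ h => h.symm⟩
  loopless := ⟨fun u h => by
    rcases h with h | h
    · exact hne u h.1 h.2
    · exact hne u h.1 h.2⟩

variable (hne : ∀ v, v ≠ root → par v ≠ v) (hsz : ∀ v, v ≠ root → size (par v) + 1 = size v)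
  (hroot : par root = root) (h0 : size root = 0)

include hsz h0 in
theorem pg_walk (u : V) : ∀ n, size u = n →
    ∃ p : (pgraph root par hne).Walk u root, p.length = n := by
  intro n
  induction n generalizing u with
  | zero =>
    intro hn
    have hu : u = root := by
      by_contra hcon
      have := hsz u hcon
      omega
    subst hu
    exact ⟨SimpleGraph.Walk.nil, rfl⟩
  | succ n ih =>
    intro hn
    have hu : u ≠ root := by
      intro h; rw [h, h0] at hn; omega
    have h1 := hsz u hu
    obtain ⟨p, hp⟩ := ih (par u) (by omega)
    exact ⟨SimpleGraph.Walk.cons (Or.inl ⟨hu, rfl⟩) p, by simp [hp]⟩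

include hsz in
theorem pg_len {u v : V} (p : (pgraph root par hne).Walk u v) : size v ≤ size u + p.length := by
  induction p with
  | nil => simp
  | cons h p ih =>
    rw [SimpleGraph.Walk.length_cons]
    rcases h with h | h
    · have := hsz _ h.1
      rw [h.2] at this
      omega
    · have := hsz _ h.1
      rw [h.2] at this
      omega

include hsz h0 in
theorem pg_connected : (pgraph root par hne).Connected := by
  have : Nonempty V := ⟨root⟩
  refine ⟨fun u v => ?_⟩
  obtain ⟨p, _⟩ := pg_walk root par size hne hsz h0 u _ rfl
  obtain ⟨q, _⟩ := pg_walk root par size hne hsz h0 v _ rfl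
  exact ⟨p.append q.reverse⟩

include hsz h0 in
theorem pg_dist (v : V) : (pgraph root par hne).dist root v = size v := by
  apply le_antisymm
  · obtain ⟨p, hp⟩ := pg_walk root par size hne hsz h0 v _ rfl
    rw [← hp, ← p.length_reverse]
    exact SimpleGraph.dist_le _
  · obtain ⟨p, hp⟩ := ((pg_connected root par size hne hsz h0).preconnected root v).exists_walk_length_eq_dist
    have := pg_len root par size hne hsz p
    rw [h0, hp] at this
    omega

include hsz hroot in
theorem size_iter_le (v : V) (n : ℕ) : size (par^[n] v) ≤ size v := by
  induction n with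
  | zero => simp
  | succ n ih =>
    rw [Function.iterate_succ_apply']
    by_cases h : par^[n] v = root
    · rw [h, hroot, ← h]; exact ih
    · have := hsz _ h; omega

include hsz hroot in
theorem pg_acyclic : (pgraph root par hne).IsAcyclic := by
  rw [SimpleGraph.isAcyclic_iff_forall_adj_isBridge]
  have key : ∀ v w : V, v ≠ root → par v = w → (pgraph root par hne).IsBridge s(v, w) := by
    intro v w hv hw
    subst hw
    rw [SimpleGraph.isBridge_iff_forall_walk_mem_edges]
    intro p
    obtain ⟨d, hd, h1, h2⟩ := p.exists_boundary_dart {u | ∃ n, par^[n] u = v} ⟨0, rfl⟩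
      (by
        rintro ⟨n, hn⟩
        have h3 := size_iter_le root par size hsz hroot (par v) n
        rw [hn] at h3
        have := hsz v hv
        omega)
    obtain ⟨n, hn⟩ := h1
    have h4 : par d.fst = d.snd := by
      rcases d.adj with h | h
      · exact h.2
      · exfalso
        apply h2
        refine ⟨n + 1, ?_⟩
        rw [Function.iterate_succ_apply, h.2]; exact hn
    have h5 : d.fst = v := by
      cases n with
      | zero => exact hn
      | succ n =>
        exfalso
        apply h2
        refine ⟨n, ?_⟩
        rw [← h4, ← Function.iterate_succ_apply]; exact hn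
    have h6 : d.edge ∈ p.edges := List.mem_map_of_mem hd
    have h7 : d.edge = s(v, par v) := by
      rw [← h5, h4]
      rfl
    rw [← h7]
    exact h6
  intro v w h
  rcases h with h | h
  · exact key v w h.1 h.2
  · rw [Sym2.eq_swap]; exact key w v h.1 h.2

include hsz hroot h0 in
theorem pg_isTree : (pgraph root par hne).IsTree :=
  ⟨pg_connected root par size hne hsz h0, pg_acyclic root par size hne hsz hroot⟩

include hsz h0 in
theorem pg_parent (v w : V) : ((pgraph root par hne).Adj v w ∧
    (pgraph root par hne).dist root v = (pgraph root par hne).dist root w + 1) ↔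
    v ≠ root ∧ par v = w := by
  rw [pg_dist root par size hne hsz h0, pg_dist root par size hne hsz h0]
  constructor
  · rintro ⟨h | h, h2⟩
    · exact h
    · have := hsz w h.1
      rw [h.2] at this
      omega
  · rintro ⟨h1, h2⟩
    refine ⟨Or.inl ⟨h1, h2⟩, ?_⟩
    have := hsz v h1
    rw [h2] at this
    omega

end Q57.LT
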